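import Pool.Agent.W_MP_7e32c9_lc.Core

set_option autoImplicit false

namespace Pool.Agent.W_MP_7e32c9_lc

/-- the sizes of the alphabets -/
def AA (L k : ℕ) (i : Fin L) : ℕ := k ^ ((k + 2) ^ (i : ℕ))

lemma geom (k l : ℕ) : (k + 1) * ∑ i ∈ Finset.range l, (k + 2) ^ i + 1 = (k + 2) ^ l := by
  induction l with
  | zero => simp
  | succ l ih =>
    rw [Finset.sum_range_succ, mul_add, add_right_comm, ih, pow_succ]
    ring

lemma prod_if (L l : ℕ) (hl : l ≤ L) (F : ℕ → ℕ) :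
    ∏ i : Fin L, (if (i : ℕ) < l then F i else 1) = ∏ i ∈ Finset.range l, F i := by
  rw [Fin.prod_univ_eq_prod_range (fun i => if i < l then F i else 1) L]
  rw [← Finset.prod_filter]
  congr 1
  ext i
  simp only [Finset.mem_filter, Finset.mem_range]
  omega

lemma prod_range_pow (k l : ℕ) :
    ∏ i ∈ Finset.range l, k ^ ((k + 2) ^ i) = k ^ (∑ i ∈ Finset.range l, (k + 2) ^ i) := by
  rw [Finset.prod_pow_eq_pow_sum]

lemma choose_le (k l : ℕ) :
    ∏ i ∈ Finset.range l, (k ^ ((k + 2) ^ i)).choose k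
      ≤ k ^ (k * ∑ i ∈ Finset.range l, (k + 2) ^ i) := by
  calc ∏ i ∈ Finset.range l, (k ^ ((k + 2) ^ i)).choose k
      ≤ ∏ i ∈ Finset.range l, (k ^ ((k + 2) ^ i)) ^ k :=
        Finset.prod_le_prod (fun _ _ => Nat.zero_le _) fun i _ => Nat.choose_le_pow _ _
    _ = k ^ (k * ∑ i ∈ Finset.range l, (k + 2) ^ i) := by
        rw [Finset.prod_pow, prod_range_pow, ← pow_mul, mul_comm]

lemma growth (L k : ℕ) (hk : 0 < k) (l : Fin L) :
    ((∏ i : Fin L, (if (i : ℕ) < l then (AA L k i).choose k else 1)) *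
      ∏ i : Fin L, (if (i : ℕ) < l then AA L k i else 1)) * (k - 1) < AA L k l := by
  unfold AA
  rw [prod_if L l l.2.le (fun i => (k ^ ((k + 2) ^ i)).choose k),
    prod_if L l l.2.le (fun i => k ^ ((k + 2) ^ i)), prod_range_pow]
  have h1 := choose_le k l
  have h2 := geom k l
  set s := ∑ i ∈ Finset.range (l : ℕ), (k + 2) ^ i
  calc (∏ i ∈ Finset.range (l : ℕ), (k ^ ((k + 2) ^ i)).choose k) * k ^ s * (k - 1)
      ≤ k ^ (k * s) * k ^ s * (k - 1) := by gcongr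
    _ = k ^ ((k + 1) * s) * (k - 1) := by rw [← pow_add]; congr 2; ring
    _ < k ^ ((k + 1) * s) * k := by
        apply Nat.mul_lt_mul_of_pos_left
        · omega
        · positivity
    _ = k ^ ((k + 2) ^ (l : ℕ)) := by rw [← h2, pow_succ]

lemma prod_AA_le (L k : ℕ) (hk : 0 < k) : ∏ i : Fin L, AA L k i ≤ k ^ ((k + 2) ^ L) := by
  unfold AA
  rw [Fin.prod_univ_eq_prod_range (fun i => k ^ ((k + 2) ^ i)) L, prod_range_pow]
  apply Nat.pow_le_pow_right hk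
  have := geom k L
  nlinarith [Nat.zero_le (∑ i ∈ Finset.range L, (k + 2) ^ i)]

lemma prod_choose_le (L k : ℕ) (hk : 0 < k) :
    ∏ i : Fin L, (AA L k i).choose k ≤ k ^ ((k + 2) ^ L) := by
  unfold AA
  rw [Fin.prod_univ_eq_prod_range (fun i => (k ^ ((k + 2) ^ i)).choose k) L]
  refine (choose_le k L).trans ?_
  apply Nat.pow_le_pow_right hk
  have := geom k L
  nlinarith [Nat.zero_le (∑ i ∈ Finset.range L, (k + 2) ^ i)]

/-- `k ^ ((k+2)^L)` is at most `exp((k+2)^(L+1))`. -/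
lemma pow_le_exp (L k : ℕ) : ((k ^ ((k + 2) ^ L) : ℕ) : ℝ) ≤ Real.exp (((k : ℝ) + 2) ^ (L + 1)) := by
  have h1 : (k : ℝ) ≤ Real.exp ((k : ℝ) + 2) := by
    have := Real.add_one_le_exp ((k : ℝ) + 2)
    linarith
  push_cast
  calc (k : ℝ) ^ ((k + 2) ^ L) ≤ (Real.exp ((k : ℝ) + 2)) ^ ((k + 2) ^ L) := by gcongr
    _ = Real.exp (((k : ℝ) + 2) ^ (L + 1)) := by
        rw [← Real.exp_nat_mul]
        congr 1
        push_cast
        ring

open Filter in
/-- The choice of the parameters. -/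
lemma parameters (ε α c : ℝ) (hε : 0 < ε) (hα : 0 < α) (hc : 0 < c) :
    ∃ (L : ℕ) (δ : ℝ), 0 < L ∧ 0 < δ ∧ ∃ n₀ : ℕ, ∀ n : ℕ, n₀ ≤ n → ∃ k : ℕ, 0 < k ∧
      (Real.log n) ^ δ ≤ k ∧ (k : ℝ) < (Real.log n) ^ (1 + ε) ∧
      ((2 * L - 1 : ℕ) : ℝ) < (Real.log n) ^ (1 + ε) ∧
      c * (k + (2 * L - 1 : ℕ)) < L * k ∧
      ((k ^ ((k + 2) ^ L) : ℕ) : ℝ) ≤ n ∧ ((k ^ ((k + 2) ^ L) : ℕ) : ℝ) < (n : ℝ) ^ α := by
  obtain ⟨M, hM⟩ := exists_nat_gt c
  set L := M + 1 with hLdef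
  have hL : 0 < L := by omega
  set δ : ℝ := 1 / (2 * (L + 1)) with hδdef
  have hδ : 0 < δ := by positivity
  refine ⟨L, δ, hL, hδ, ?_⟩
  have hlog : Tendsto (fun n : ℕ => Real.log n) atTop atTop :=
    Real.tendsto_log_atTop.comp tendsto_natCast_atTop_atTop
  have h1 : Tendsto (fun n : ℕ => (Real.log n) ^ δ) atTop atTop :=
    (tendsto_rpow_atTop hδ).comp hlog
  have h2 : Tendsto (fun n : ℕ => (Real.log n) ^ (1 / 2 : ℝ)) atTop atTop :=
    (tendsto_rpow_atTop (by norm_num)).comp hlog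
  set m : ℝ := min 1 α with hm
  have hm0 : 0 < m := lt_min one_pos hα
  have hev := ((h1.eventually_ge_atTop (3 + c * (2 * L - 1 : ℕ) + (2 * L - 1 : ℕ))).and
    (h2.eventually_gt_atTop (2 ^ (L + 1) / m))).and ((hlog.eventually_ge_atTop 1).and
      (eventually_ge_atTop 1))
  obtain ⟨n₀, hn₀⟩ := eventually_atTop.1 hev
  refine ⟨n₀, fun n hn => ?_⟩
  obtain ⟨⟨ha, hb⟩, hx1, hn1⟩ := hn₀ n hn
  set x := Real.log n with hx
  have hx0 : 0 < x := by linarith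
  have hxδ : 0 ≤ x ^ δ := by positivity
  set k := ⌈x ^ δ⌉₊ with hk
  have hkge : x ^ δ ≤ k := Nat.le_ceil _
  have hklt : (k : ℝ) < x ^ δ + 1 := Nat.ceil_lt_add_one hxδ
  have hcL : 0 ≤ c * (2 * L - 1 : ℕ) := by positivity
  have hLL : (0 : ℝ) ≤ (2 * L - 1 : ℕ) := Nat.cast_nonneg _
  have hk2 : (k : ℝ) + 2 ≤ 2 * x ^ δ := by linarith
  have hkpos : (0 : ℝ) < k := by linarith
  -- the main estimate
  have hmain : ((k : ℝ) + 2) ^ (L + 1) < m * x := by
    calc ((k : ℝ) + 2) ^ (L + 1) ≤ (2 * x ^ δ) ^ (L + 1) := by gcongr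
      _ = 2 ^ (L + 1) * x ^ (1 / 2 : ℝ) := by
          rw [mul_pow, ← Real.rpow_natCast (x ^ δ), ← Real.rpow_mul hx0.le]
          congr 2
          rw [hδdef]
          push_cast
          field_simp
      _ < m * x ^ (1 / 2 : ℝ) * x ^ (1 / 2 : ℝ) := by
          have : 2 ^ (L + 1) < m * x ^ (1 / 2 : ℝ) := by
            rw [div_lt_iff₀ hm0] at hb
            linarith
          have hx12 : 0 < x ^ (1 / 2 : ℝ) := by positivity
          nlinarith
      _ = m * x := by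
          rw [mul_assoc, ← Real.rpow_add hx0]
          norm_num
  have hmx1 : m * x ≤ x := by
    have : m ≤ 1 := min_le_left _ _
    nlinarith
  have hmxα : m * x ≤ α * x := by
    have : m ≤ α := min_le_right _ _
    nlinarith
  have hnpos : (0 : ℝ) < n := by exact_mod_cast hn1
  have hexp : Real.exp x = n := Real.exp_log hnpos
  have hkx : (k : ℝ) < x := by
    have h3 : (k : ℝ) ≤ ((k : ℝ) + 2) ^ (L + 1) := by
      calc (k : ℝ) ≤ (k : ℝ) + 2 := by linarith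
        _ = ((k : ℝ) + 2) ^ 1 := by ring
        _ ≤ ((k : ℝ) + 2) ^ (L + 1) := by
          apply pow_le_pow_right₀ <;> [linarith; omega]
    linarith
  have hxε : x ≤ x ^ (1 + ε) := by
    calc x = x ^ (1 : ℝ) := (Real.rpow_one x).symm
      _ ≤ x ^ (1 + ε) := Real.rpow_le_rpow_of_exponent_le hx1 (by linarith)
  refine ⟨k, by exact_mod_cast hkpos, hkge, by linarith, ?_, ?_, ?_, ?_⟩
  · have : ((2 * L - 1 : ℕ) : ℝ) ≤ k := by linarith
    linarith
  · have hML : (L : ℝ) = M + 1 := by rw [hLdef]; push_cast; ring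
    have h4 : c * k + k ≤ L * k := by
      rw [hML]
      nlinarith
    have h5 : c * (2 * L - 1 : ℕ) < k := by linarith
    linarith
  · calc ((k ^ ((k + 2) ^ L) : ℕ) : ℝ) ≤ Real.exp (((k : ℝ) + 2) ^ (L + 1)) := pow_le_exp L k
      _ ≤ Real.exp x := Real.exp_le_exp.2 (by linarith)
      _ = n := hexp
  · calc ((k ^ ((k + 2) ^ L) : ℕ) : ℝ) ≤ Real.exp (((k : ℝ) + 2) ^ (L + 1)) := pow_le_exp L k
      _ < Real.exp (α * x) := Real.exp_lt_exp.2 (by linarith)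
      _ = (n : ℝ) ^ α := by rw [Real.rpow_def_of_pos hnpos, mul_comm]

end Pool.Agent.W_MP_7e32c9_lc
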