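import Pool.Agent.W_MP_7e32c9_lc.Cross

set_option autoImplicit false

namespace Pool.Agent.W_MP_7e32c9_lc

variable {L : ℕ} {A : Fin L → ℕ} {n : ℕ}

open Classical in
/-- Iterated pigeonhole: every deterministic online protocol has a slow product instance. -/
theorem claim (hL : 0 < L) (w₀ : Word A) (f : Fin n → Option (Word A)) (e : Word A → Fin n)
    (hfe : ∀ w, f (e w) = some w) (hef : ∀ i w, f i = some w → i = e w)
    (Pr : OnlineProtocol (Node A n) n) (k : ℕ) (hk : 0 < k)
    (hA : ∀ l : Fin L, ((∏ i : Fin L, (if (i : ℕ) < l then (A i).choose k else 1)) *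
      ∏ i : Fin L, (if (i : ℕ) < l then A i else 1)) * (k - 1) < A l) (l : ℕ) (hlL : l ≤ L) :
    ∀ w : Word A, ∃ T : (i : Fin L) → Finset (Fin (A i)),
      (∀ i : Fin L, (i : ℕ) < l → (T i).card = k) ∧
      ∃ g : Word A, (∀ i : Fin L, (i : ℕ) < l → g i ∈ T i) ∧
        (∀ i : Fin L, l ≤ (i : ℕ) → g i = w i) ∧
        ∀ S : Set (Word A), (∀ v : Word A, (∀ i : Fin L, l ≤ (i : ℕ) → v i = w i) →
          (v ∈ S ↔ ∀ i : Fin L, (i : ℕ) < l → v i ∈ T i)) →
          ∀ t, t < l * k → (run Pr (inst hL w₀ f S) t).pos (e g) + 2 ≤ 2 * l := by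
  induction l with
  | zero =>
    intro w
    exact ⟨fun _ => ∅, fun i hi => absurd hi (Nat.not_lt_zero _), w,
      fun i hi => absurd hi (Nat.not_lt_zero _), fun _ _ => rfl,
      fun S _ t ht => by omega⟩
  | succ l ih =>
    have hl : l < L := hlL
    intro w
    let l' : Fin L := ⟨l, hl⟩
    choose T hTcard g hgT hgw hpos using fun β : Fin (A l') => ih (by omega) (Function.update w l' β)
    -- the outcome map
    let F : Fin (A l') → ((i : Fin L) → Finset (Fin (A i))) × Word A := fun β =>
      (fun i => if (i : ℕ) < l then T β i else ∅, fun i => if (i : ℕ) < l then g β i else w₀ i)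
    let O : Finset (((i : Fin L) → Finset (Fin (A i))) × Word A) :=
      (Fintype.piFinset fun i : Fin L =>
        if (i : ℕ) < l then Finset.powersetCard k (Finset.univ : Finset (Fin (A i))) else {∅}) ×ˢ
      (Fintype.piFinset fun i : Fin L =>
        if (i : ℕ) < l then (Finset.univ : Finset (Fin (A i))) else {w₀ i})
    have hmaps : ∀ β ∈ (Finset.univ : Finset (Fin (A l'))), F β ∈ O := by
      intro β _
      simp only [O, F, Finset.mem_product, Fintype.mem_piFinset]
      constructor
      · intro i
        by_cases hi : (i : ℕ) < l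
        · simp only [if_pos hi, Finset.mem_powersetCard]
          exact ⟨Finset.subset_univ _, hTcard β i hi⟩
        · simp only [if_neg hi, Finset.mem_singleton]
      · intro i
        by_cases hi : (i : ℕ) < l
        · simp only [if_pos hi, Finset.mem_univ]
        · simp only [if_neg hi, Finset.mem_singleton]
    have hOcard : O.card = (∏ i : Fin L, (if (i : ℕ) < l then (A i).choose k else 1)) *
        ∏ i : Fin L, (if (i : ℕ) < l then A i else 1) := by
      simp only [O, Finset.card_product, Fintype.card_piFinset]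
      congr 1
      · refine Finset.prod_congr rfl fun i _ => ?_
        split_ifs <;> simp
      · refine Finset.prod_congr rfl fun i _ => ?_
        split_ifs <;> simp
    have hlt : O.card * (k - 1) < (Finset.univ : Finset (Fin (A l'))).card := by
      rw [hOcard, Finset.card_univ, Fintype.card_fin]
      exact hA l'
    obtain ⟨y, _, hy⟩ := Finset.exists_lt_card_fiber_of_mul_lt_card_of_maps_to hmaps hlt
    obtain ⟨B, hBsub, hBcard⟩ := Finset.exists_subset_card_eq (n := k) (by omega :
      k ≤ (Finset.univ.filter fun β => F β = y).card)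
    have hBF : ∀ β ∈ B, F β = y := fun β hβ => (Finset.mem_filter.1 (hBsub hβ)).2
    obtain ⟨β₀, hβ₀⟩ : B.Nonempty := Finset.card_pos.1 (by omega)
    have hTeq : ∀ β ∈ B, ∀ i : Fin L, (i : ℕ) < l → T β i = T β₀ i := by
      intro β hβ i hi
      have h1 : F β = F β₀ := (hBF β hβ).trans (hBF β₀ hβ₀).symm
      have h2 := congrFun (congrArg Prod.fst h1) i
      simpa [F, if_pos hi] using h2
    have hgeq : ∀ β ∈ B, ∀ i : Fin L, (i : ℕ) < l → g β i = g β₀ i := by
      intro β hβ i hi
      have h1 : F β = F β₀ := (hBF β hβ).trans (hBF β₀ hβ₀).symm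
      have h2 := congrFun (congrArg Prod.snd h1) i
      simpa [F, if_pos hi] using h2
    have hgl : ∀ β, g β l' = β := by
      intro β
      rw [hgw β l' (le_refl _), Function.update_self]
    have hgr : ∀ β, ∀ i : Fin L, l < (i : ℕ) → g β i = w i := by
      intro β i hi
      rw [hgw β i (by omega), Function.update_of_ne]
      intro h
      have : (i : ℕ) = l := by rw [h]
      omega
    let T' : (i : Fin L) → Finset (Fin (A i)) := Function.update (T β₀) l' B
    have hT'lt : ∀ i : Fin L, (i : ℕ) < l → T' i = T β₀ i := by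
      intro i hi
      simp only [T']
      rw [Function.update_of_ne]
      intro h
      have : (i : ℕ) = l := by rw [h]
      omega
    have hT'l : T' l' = B := by simp [T']
    have hfin : ∀ i : Fin L, (i : ℕ) < l + 1 → (i : ℕ) < l ∨ i = l' := by
      intro i hi
      rcases Nat.lt_succ_iff_lt_or_eq.1 hi with h | h
      · exact Or.inl h
      · exact Or.inr (Fin.ext h)
    -- what the hypothesis on `S` gives for each `β ∈ B`
    have hSβ : ∀ S : Set (Word A), (∀ v : Word A, (∀ i : Fin L, l + 1 ≤ (i : ℕ) → v i = w i) →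
          (v ∈ S ↔ ∀ i : Fin L, (i : ℕ) < l + 1 → v i ∈ T' i)) → ∀ β ∈ B,
        ∀ v : Word A, (∀ i : Fin L, l ≤ (i : ℕ) → v i = Function.update w l' β i) →
          (v ∈ S ↔ ∀ i : Fin L, (i : ℕ) < l → v i ∈ T β i) := by
      intro S hS β hβ v hv
      have hvl : v l' = β := by rw [hv l' (le_refl _), Function.update_self]
      have hvr : ∀ i : Fin L, l + 1 ≤ (i : ℕ) → v i = w i := by
        intro i hi
        rw [hv i (by omega), Function.update_of_ne]
        intro h
        have : (i : ℕ) = l := by rw [h]
        omega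
      rw [hS v hvr]
      constructor
      · intro h i hi
        rw [hTeq β hβ i hi, ← hT'lt i hi]
        exact h i (by omega)
      · intro h i hi
        rcases hfin i hi with h1 | h1
        · rw [hT'lt i h1, ← hTeq β hβ i h1]
          exact h i h1
        · subst h1
          rw [hT'l, hvl]
          exact hβ
    let S₀ : Set (Word A) := {v | (∀ i : Fin L, l + 1 ≤ (i : ℕ) → v i = w i) ∧
      ∀ i : Fin L, (i : ℕ) < l + 1 → v i ∈ T' i}
    have hS₀ : ∀ v : Word A, (∀ i : Fin L, l + 1 ≤ (i : ℕ) → v i = w i) →
          (v ∈ S₀ ↔ ∀ i : Fin L, (i : ℕ) < l + 1 → v i ∈ T' i) := by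
      intro v hv
      simp only [S₀, Set.mem_ofPred_eq]
      exact ⟨fun h => h.2, fun h => ⟨hv, h⟩⟩
    -- membership of the words `g β`
    have hgmem : ∀ β ∈ B, ∀ i : Fin L, (i : ℕ) < l + 1 → g β i ∈ T' i := by
      intro β hβ i hi
      rcases hfin i hi with h1 | h1
      · rw [hT'lt i h1, ← hTeq β hβ i h1]
        exact hgT β i h1
      · subst h1
        rw [hT'l, hgl]
        exact hβ
    have hginj : Function.Injective g := by
      intro β β' h
      rw [← hgl β, ← hgl β', h]
    obtain ⟨v, hvG, hv⟩ := crossing hL w₀ f e hfe Pr S₀ l hl k hk (B.image g)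
      (by
        intro v hv
        obtain ⟨β, hβ, rfl⟩ := Finset.mem_image.1 hv
        exact (hS₀ (g β) (fun i hi => hgr β i (by omega))).2 (hgmem β hβ))
      (by rw [Finset.card_image_of_injective _ hginj, hBcard])
      (by
        have hn : ∀ β ∈ B, nm w₀ (g β) l' = nm w₀ (g β₀) l' := by
          intro β hβ
          funext i
          unfold nm
          by_cases hi : i = l'
          · subst hi
            simp
          · rw [Function.update_of_ne hi, Function.update_of_ne hi]
            rcases Nat.lt_or_ge (i : ℕ) l with h1 | h1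
            · exact hgeq β hβ i h1
            · have h2 : l < (i : ℕ) := by
                rcases Nat.lt_or_eq_of_le h1 with h3 | h3
                · exact h3
                · exact absurd (Fin.ext h3.symm) hi
              rw [hgr β i h2, hgr β₀ i h2]
        intro v hv v' hv'
        obtain ⟨β, hβ, rfl⟩ := Finset.mem_image.1 hv
        obtain ⟨β', hβ', rfl⟩ := Finset.mem_image.1 hv'
        rw [hn β hβ, hn β' hβ'])
      (by
        intro v hv t ht
        obtain ⟨β, hβ, rfl⟩ := Finset.mem_image.1 hv
        exact hpos β S₀ (hSβ S₀ hS₀ β hβ) t ht)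
    obtain ⟨β, hβ, rfl⟩ := Finset.mem_image.1 hvG
    refine ⟨T', ?_, g β, hgmem β hβ, fun i hi => hgr β i (by omega), ?_⟩
    · intro i hi
      rcases hfin i hi with h1 | h1
      · rw [hT'lt i h1]
        exact hTcard β₀ i h1
      · subst h1
        rw [hT'l, hBcard]
    · intro S hS t ht
      have h1 := hv t ht
      have h2 := inst_locality hL w₀ f e Pr S₀ S l w hfe hef
        (by
          intro v hv
          rw [hS₀ v (fun i hi => hv i (by omega)), hS v (fun i hi => hv i (by omega))])
        (g β) (fun i hi => hgr β i hi)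
        ((hS₀ (g β) (fun i hi => hgr β i (by omega))).2 (hgmem β hβ)) t (by omega)
      rw [h2]
      exact h1

end Pool.Agent.W_MP_7e32c9_lc
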