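import Pool.Agent.W_MP_7e32c9_lc.Claim

set_option autoImplicit false

namespace Pool.Agent.W_MP_7e32c9_lc

variable {L : ℕ} {A : Fin L → ℕ} {n : ℕ}

/-- the active words of a product instance -/
def prodSet (T : (i : Fin L) → Finset (Fin (A i))) : Set (Word A) := {v | ∀ i, v i ∈ T i}

section

variable (hL : 0 < L) (w₀ : Word A) (f : Fin n → Option (Word A)) (e : Word A → Fin n)

open Classical in
lemma not_delivers (hfe : ∀ w, f (e w) = some w) (hef : ∀ i w, f i = some w → i = e w)
    (Pr : OnlineProtocol (Node A n) n) (k : ℕ) (hk : 0 < k)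
    (hA : ∀ l : Fin L, ((∏ i : Fin L, (if (i : ℕ) < l then (A i).choose k else 1)) *
      ∏ i : Fin L, (if (i : ℕ) < l then A i else 1)) * (k - 1) < A l) :
    ∃ T ∈ Fintype.piFinset (fun i : Fin L => Finset.powersetCard k (Finset.univ : Finset (Fin (A i)))),
      ∀ t, t < L * k → ¬ Delivers Pr (inst hL w₀ f (prodSet T)) t := by
  obtain ⟨T, hT, g, hgT, _, hpos⟩ := claim hL w₀ f e hfe hef Pr k hk hA L le_rfl w₀
  refine ⟨T, ?_, ?_⟩
  · rw [Fintype.mem_piFinset]
    intro i
    rw [Finset.mem_powersetCard]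
    exact ⟨Finset.subset_univ _, hT i i.2⟩
  · intro t ht hdel
    have h1 := hpos (prodSet T) (fun v _ => ⟨fun h i _ => h i, fun h i => h i i.2⟩) t ht
    have h2 := hdel (e g)
    have hg : g ∈ prodSet T := fun i => hgT i i.2
    rw [path_mem hL w₀ f e hg hfe, gp_length] at h2
    omega

lemma nm_inj (w₀ v w : Word A) (l : Fin L) (h : nm w₀ v l = nm w₀ w l) (h2 : v l = w l) :
    v = w := by
  funext i
  by_cases hi : i = l
  · subst hi
    exact h2
  · have := congrFun h i
    unfold nm at this
    rwa [Function.update_of_ne hi, Function.update_of_ne hi] at this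

open Classical in
lemma congestion_le (hef : ∀ i w, f i = some w → i = e w)
    (k : ℕ) (hk : 0 < k) (T : (i : Fin L) → Finset (Fin (A i))) (hT : ∀ i, (T i).card = k) :
    (inst hL w₀ f (prodSet T)).congestion ≤ k := by
  unfold PathCollection.congestion
  refine Finset.sup_le fun ed _ => ?_
  obtain ⟨u, v⟩ := ed
  simp only
  set P := inst hL w₀ f (prodSet T) with hP
  rcases u with ⟨j, x⟩ | ⟨i', b⟩
  · -- gadget node
    have key : ∀ i : {i : Fin n // P.Uses i (Sum.inl (j, x)) v}, ∃ w : Word A, w ∈ prodSet T ∧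
        (i : Fin n) = e w ∧ nm w₀ w (half j) = x := by
      rintro ⟨i, j', h1, _⟩
      rcases path_cases hL w₀ f e (prodSet T) i hef with ⟨w, hw, hiw, _, hp⟩ | ⟨_, hp⟩
      · refine ⟨w, hw, hiw, ?_⟩
        rw [hp] at h1
        by_cases hj : j' < 2 * L
        · rw [gp_get _ _ _ hj] at h1
          have h3 := Prod.mk.inj (Sum.inl.inj (Option.some.inj h1))
          rw [← h3.2, ← h3.1]
        · rw [gp_get_none _ _ _ hj] at h1
          exact absurd h1 (by simp)
      · rw [hp] at h1
        have : (Sum.inl (j, x) : Node A n) ∈ (dp i : List (Node A n)) := List.mem_of_getElem? h1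
        simp [dp] at this
    choose W hW1 hW2 hW3 using key
    have hinj : Function.Injective (fun i : {i : Fin n // P.Uses i (Sum.inl (j, x)) v} =>
        (⟨W i (half j), hW1 i (half j)⟩ : {y // y ∈ T (half j)})) := by
      intro i i' h
      have h1 : W i (half j) = W i' (half j) := congrArg Subtype.val h
      have h2 : W i = W i' := nm_inj w₀ _ _ (half j) ((hW3 i).trans (hW3 i').symm) h1
      apply Subtype.ext
      rw [hW2 i, hW2 i', h2]
    have h3 := Nat.card_le_card_of_injective _ hinj
    rwa [Nat.card_eq_fintype_card (α := {y // y ∈ T (half j)}), Fintype.card_coe, hT] at h3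
  · -- dummy node
    have key : ∀ i : {i : Fin n // P.Uses i (Sum.inr (i', b)) v}, (i : Fin n) = i' := by
      rintro ⟨i, j', h1, _⟩
      rcases path_cases hL w₀ f e (prodSet T) i hef with ⟨w, hw, hiw, _, hp⟩ | ⟨_, hp⟩
      · rw [hp] at h1
        by_cases hj : j' < 2 * L
        · rw [gp_get _ _ _ hj] at h1
          exact absurd (Option.some.inj h1) (by simp)
        · rw [gp_get_none _ _ _ hj] at h1
          exact absurd h1 (by simp)
      · rw [hp] at h1
        have : (Sum.inr (i', b) : Node A n) ∈ (dp i : List (Node A n)) := List.mem_of_getElem? h1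
        simp [dp] at this
        rcases this with h | h
        · exact h.1.symm
        · exact h.1.symm
    have hs : Subsingleton {i : Fin n // P.Uses i (Sum.inr (i', b)) v} :=
      ⟨fun a b => Subtype.ext ((key a).trans (key b).symm)⟩
    have h3 : Nat.card {i : Fin n // P.Uses i (Sum.inr (i', b)) v} ≤ 1 :=
      Finite.card_le_one_iff_subsingleton.2 hs
    omega

open Classical in
lemma le_congestion (hfe : ∀ w, f (e w) = some w)
    (k : ℕ) (hk : 0 < k) (T : (i : Fin L) → Finset (Fin (A i))) (hT : ∀ i, (T i).card = k) :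
    k ≤ (inst hL w₀ f (prodSet T)).congestion := by
  have hne : ∀ i, (T i).Nonempty := fun i => Finset.card_pos.1 (by rw [hT i]; exact hk)
  choose w hw using hne
  let l : Fin L := ⟨0, hL⟩
  have h2L : 0 < 2 * L := by omega
  have h2L' : 0 + 1 < 2 * L := by omega
  have hh1 : half (⟨0, h2L⟩ : Fin (2 * L)) = l := by unfold half; ext; simp [l]
  have hh2 : half (⟨0 + 1, h2L'⟩ : Fin (2 * L)) = l := by unfold half; ext; simp [l]
  unfold PathCollection.congestion
  refine le_trans ?_ (Finset.le_sup (Finset.mem_univ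
    ((Sum.inl (⟨0, h2L⟩, nm w₀ w l), Sum.inl (⟨0 + 1, h2L'⟩, nm w₀ w l)) : Node A n × Node A n)))
  simp only
  set P := inst hL w₀ f (prodSet T) with hP
  have hmem : ∀ β : {y // y ∈ T l}, Function.update w l (β : Fin (A l)) ∈ prodSet T := by
    intro β i
    by_cases hi : i = l
    · subst hi
      rw [Function.update_self]
      exact β.2
    · rw [Function.update_of_ne hi]
      exact hw i
  have hnm : ∀ β : {y // y ∈ T l}, nm w₀ (Function.update w l (β : Fin (A l))) l = nm w₀ w l := by
    intro β
    unfold nm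
    rw [Function.update_idem]
  let G : {y // y ∈ T l} → {i : Fin n // P.Uses i (Sum.inl (⟨0, h2L⟩, nm w₀ w l))
      (Sum.inl (⟨0 + 1, h2L'⟩, nm w₀ w l))} := fun β =>
    ⟨e (Function.update w l (β : Fin (A l))), 0, by
      rw [hP, path_mem hL w₀ f e (hmem β) hfe, gp_get _ _ _ h2L, hh1, hnm β], by
      rw [hP, path_mem hL w₀ f e (hmem β) hfe, gp_get _ _ _ h2L', hh2, hnm β]⟩
  have hinj : Function.Injective G := by
    intro β β' h
    have h1 : e (Function.update w l (β : Fin (A l))) = e (Function.update w l (β' : Fin (A l))) :=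
      congrArg Subtype.val h
    have h2 : Function.update w l (β : Fin (A l)) = Function.update w l (β' : Fin (A l)) := by
      have h3 := hfe (Function.update w l (β : Fin (A l)))
      rw [h1, hfe] at h3
      exact (Option.some.inj h3).symm
    have h4 := congrFun h2 l
    rw [Function.update_self, Function.update_self] at h4
    exact Subtype.ext h4
  have h3 := Nat.card_le_card_of_injective _ hinj
  rwa [Nat.card_eq_fintype_card (α := {y // y ∈ T l}), Fintype.card_coe, hT] at h3

open Classical in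
lemma dilation_le (hef : ∀ i w, f i = some w → i = e w) (S : Set (Word A)) :
    (inst hL w₀ f S).dilation ≤ 2 * L - 1 := by
  unfold PathCollection.dilation
  refine Finset.sup_le fun i _ => ?_
  rcases path_cases hL w₀ f e S i hef with ⟨w, _, _, _, hp⟩ | ⟨_, hp⟩
  · rw [hp, gp_length]
  · rw [hp]
    simp [dp]
    omega

end

/-- an assignment of packets to words -/
lemma exists_assignment (h : Fintype.card (Word A) ≤ n) :
    ∃ (f : Fin n → Option (Word A)) (e : Word A → Fin n), (∀ w, f (e w) = some w) ∧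
      ∀ i w, f i = some w → i = e w := by
  classical
  have hemb : Nonempty (Word A ↪ Fin n) := by
    apply Function.Embedding.nonempty_of_card_le
    simpa using h
  obtain ⟨e⟩ := hemb
  refine ⟨fun i => if h : ∃ w, e w = i then some h.choose else none, e, ?_, ?_⟩
  · intro w
    have hw : ∃ w', e w' = e w := ⟨w, rfl⟩
    simp only [dif_pos hw]
    exact congrArg some (e.injective hw.choose_spec)
  · intro i w hi
    by_cases hx : ∃ w', e w' = i
    · simp only [dif_pos hx] at hi
      rw [← Option.some.inj hi]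
      exact hx.choose_spec.symm
    · simp only [dif_neg hx] at hi
      exact absurd hi (by simp)

open Classical in
/-- Core lower bound. -/
theorem core (hL : 0 < L) (k : ℕ) (hk : 0 < k) (hApos : ∀ i, 0 < A i)
    (hA : ∀ l : Fin L, ((∏ i : Fin L, (if (i : ℕ) < l then (A i).choose k else 1)) *
      ∏ i : Fin L, (if (i : ℕ) < l then A i else 1)) * (k - 1) < A l)
    (hn : ∏ i, A i ≤ n)
    (Ω : Type*) [MeasurableSpace Ω] (μ : MeasureTheory.Measure Ω) [MeasureTheory.IsProbabilityMeasure μ]
    (Pr : Ω → OnlineProtocol (Node A n) n) :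
    ∃ P : PathCollection (Node A n) NAdj n, P.congestion = k ∧ P.dilation ≤ 2 * L - 1 ∧
      ∀ t, t < L * k →
        1 ≤ ((∏ i, (A i).choose k : ℕ) : ENNReal) * μ {ω | ¬ Delivers (Pr ω) P t} := by
  have hcard : Fintype.card (Word A) ≤ n := by
    rw [Fintype.card_pi]
    simpa using hn
  obtain ⟨f, e, hfe, hef⟩ := exists_assignment hcard
  let w₀ : Word A := fun i => ⟨0, hApos i⟩
  let J := Fintype.piFinset (fun i : Fin L => Finset.powersetCard k (Finset.univ : Finset (Fin (A i))))
  have hJcard : J.card = ∏ i, (A i).choose k := by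
    simp [J, Fintype.card_piFinset]
  -- for `t = L * k - 1`
  have hbig : ∃ T ∈ J, 1 ≤ (J.card : ENNReal) *
      μ {ω | ¬ Delivers (Pr ω) (inst hL w₀ f (prodSet T)) (L * k - 1)} := by
    by_contra hcon
    push Not at hcon
    have hcover : (Set.univ : Set Ω) ⊆
        ⋃ T ∈ J, {ω | ¬ Delivers (Pr ω) (inst hL w₀ f (prodSet T)) (L * k - 1)} := by
      intro ω _
      obtain ⟨T, hT, hTd⟩ := not_delivers hL w₀ f e hfe hef (Pr ω) k hk hA
      simp only [Set.mem_iUnion]
      exact ⟨T, hT, hTd _ (by have := Nat.mul_pos hL hk; omega)⟩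
    have h1 : (1 : ENNReal) ≤ ∑ T ∈ J, μ {ω | ¬ Delivers (Pr ω) (inst hL w₀ f (prodSet T)) (L * k - 1)} := by
      calc (1 : ENNReal) = μ Set.univ := (MeasureTheory.measure_univ).symm
        _ ≤ μ (⋃ T ∈ J, {ω | ¬ Delivers (Pr ω) (inst hL w₀ f (prodSet T)) (L * k - 1)}) :=
          MeasureTheory.measure_mono hcover
        _ ≤ _ := MeasureTheory.measure_biUnion_finset_le _ _
    have hJne : J.Nonempty := by
      by_contra hne
      rw [Finset.not_nonempty_iff_eq_empty] at hne
      rw [hne] at h1
      simp at h1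
    have hJ0 : (J.card : ENNReal) ≠ 0 := by
      have := Finset.card_pos.2 hJne
      exact_mod_cast this.ne'
    have hJtop : (J.card : ENNReal) ≠ ⊤ := ENNReal.natCast_ne_top _
    have h2 : ∑ T ∈ J, μ {ω | ¬ Delivers (Pr ω) (inst hL w₀ f (prodSet T)) (L * k - 1)}
        < ∑ _T ∈ J, (J.card : ENNReal)⁻¹ := by
      refine ENNReal.sum_lt_sum_of_nonempty hJne fun T hT => ?_
      have h3 := hcon T hT
      by_contra h4
      have h5 : (J.card : ENNReal)⁻¹ ≤
        μ {ω | ¬ Delivers (Pr ω) (inst hL w₀ f (prodSet T)) (L * k - 1)} := not_lt.1 h4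
      have h6 : (1 : ENNReal) ≤ (J.card : ENNReal) *
          μ {ω | ¬ Delivers (Pr ω) (inst hL w₀ f (prodSet T)) (L * k - 1)} := by
        calc (1 : ENNReal) = (J.card : ENNReal) * (J.card : ENNReal)⁻¹ :=
              (ENNReal.mul_inv_cancel hJ0 hJtop).symm
          _ ≤ _ := mul_le_mul_right h5 _
      exact absurd h3 (not_lt.2 h6)
    rw [Finset.sum_const, nsmul_eq_mul, ENNReal.mul_inv_cancel hJ0 hJtop] at h2
    exact absurd h1 (not_le.2 h2)
  obtain ⟨T, hT, hTb⟩ := hbig
  have hTk : ∀ i, (T i).card = k := fun i =>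
    (Finset.mem_powersetCard.1 (Fintype.mem_piFinset.1 hT i)).2
  refine ⟨inst hL w₀ f (prodSet T), le_antisymm (congestion_le hL w₀ f e hef k hk T hTk)
    (le_congestion hL w₀ f e hfe k hk T hTk), dilation_le hL w₀ f e hef _, ?_⟩
  intro t ht
  rw [← hJcard]
  refine hTb.trans ?_
  refine mul_le_mul_right (MeasureTheory.measure_mono ?_) _
  intro ω hω hdel
  apply hω
  intro i
  have h1 := hdel i
  have h2 := pos_mono (Pr ω) (inst hL w₀ f (prodSet T)) i (show t ≤ L * k - 1 by omega)
  have h3 := pos_lt_length (Pr ω) (inst hL w₀ f (prodSet T)) i (L * k - 1)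
  simp only at h2
  omega

end Pool.Agent.W_MP_7e32c9_lc
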