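import Pool.Agent.W_MP_7e32c9_lc.Gadget

set_option autoImplicit false

namespace Pool.Agent.W_MP_7e32c9_lc

variable {L : ℕ} {A : Fin L → ℕ} {n : ℕ}

open Classical in
/-- The last of `k` packets that meet at a bottleneck crosses it late. -/
lemma crossing (hL : 0 < L) (w₀ : Word A) (f : Fin n → Option (Word A)) (e : Word A → Fin n)
    (hfe : ∀ w, f (e w) = some w)
    (Pr : OnlineProtocol (Node A n) n) (S : Set (Word A)) (l : ℕ) (hl : l < L) (k : ℕ)
    (hk : 0 < k)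
    (G : Finset (Word A)) (hGS : ∀ v ∈ G, v ∈ S) (hcard : G.card = k)
    (hnm : ∀ v ∈ G, ∀ v' ∈ G, nm w₀ v ⟨l, hl⟩ = nm w₀ v' ⟨l, hl⟩)
    (hpos : ∀ v ∈ G, ∀ t, t < l * k → (run Pr (inst hL w₀ f S) t).pos (e v) + 2 ≤ 2 * l) :
    ∃ v ∈ G, ∀ t, t < (l + 1) * k →
      (run Pr (inst hL w₀ f S) t).pos (e v) + 2 ≤ 2 * (l + 1) := by
  by_contra hcon
  push Not at hcon
  have key : ∀ v ∈ G, ∃ c, l * k ≤ c ∧ c < l * k + (k - 1) ∧
      (run Pr (inst hL w₀ f S) c).pos (e v) = 2 * l ∧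
      (run Pr (inst hL w₀ f S) (c + 1)).pos (e v) = 2 * l + 1 := by
    intro v hv
    obtain ⟨t₁, ht₁, hp₁⟩ := hcon v hv
    have hex : ∃ t, 2 * l + 1 ≤ (run Pr (inst hL w₀ f S) t).pos (e v) := ⟨t₁, by omega⟩
    have h0 : (run Pr (inst hL w₀ f S) 0).pos (e v) = 0 := rfl
    obtain ⟨t₂, ht₂, hmin⟩ : ∃ t₂, 2 * l + 1 ≤ (run Pr (inst hL w₀ f S) t₂).pos (e v) ∧
        ∀ t < t₂, ¬ 2 * l + 1 ≤ (run Pr (inst hL w₀ f S) t).pos (e v) :=
      ⟨Nat.find hex, Nat.find_spec hex, fun t ht => Nat.find_min hex ht⟩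
    have ht₂pos : t₂ ≠ 0 := by
      intro h
      rw [h, h0] at ht₂
      omega
    obtain ⟨c, rfl⟩ : ∃ c, t₂ = c + 1 := ⟨t₂ - 1, by omega⟩
    have h1 := hmin c (by omega)
    have h2 := pos_succ_le Pr (inst hL w₀ f S) c (e v)
    have h3 : c + 1 ≤ t₁ := by
      by_contra hlt
      exact hmin t₁ (by omega) (by omega)
    have h4 : l * k ≤ c := by
      by_contra hlt
      have := hpos v hv c (by omega)
      omega
    have h5 : (l + 1) * k = l * k + k := by ring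
    refine ⟨c, h4, by omega, by omega, by omega⟩
  choose! c hc1 hc2 hc3 hc4 using key
  have hinj : Set.InjOn c (G : Set (Word A)) := by
    intro v hv v' hv' hcc
    have hv1 : v ∈ G := hv
    have hv1' : v' ∈ G := hv'
    have m1 := moves_of_lt Pr (inst hL w₀ f S) (c v) (e v) (by rw [hc3 v hv1, hc4 v hv1]; omega)
    have m2 := moves_of_lt Pr (inst hL w₀ f S) (c v') (e v')
      (by rw [hc3 v' hv1', hc4 v' hv1']; omega)
    obtain ⟨u, w, hu, hw, hf⟩ := m1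
    obtain ⟨u', w', hu', hw', hf'⟩ := m2
    rw [path_mem hL w₀ f e (hGS v hv1) hfe, hc3 v hv1] at hu hw
    rw [path_mem hL w₀ f e (hGS v' hv1') hfe, hc3 v' hv1'] at hu' hw'
    have b1 : 2 * l < 2 * L := by omega
    have b2 : 2 * l + 1 < 2 * L := by omega
    have hh1 : half (⟨2 * l, b1⟩ : Fin (2 * L)) = ⟨l, hl⟩ := by
      unfold half; ext; simp
    have hh2 : half (⟨2 * l + 1, b2⟩ : Fin (2 * L)) = ⟨l, hl⟩ := by
      unfold half; ext; simp; omega
    rw [gp_get _ _ _ b1, hh1] at hu hu'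
    rw [gp_get _ _ _ b2, hh2] at hw hw'
    have hn := hnm v hv1 v' hv1'
    rw [← hn] at hu' hw'
    have e1 : u = u' := Option.some.inj (hu.symm.trans hu')
    have e2 : w = w' := Option.some.inj (hw.symm.trans hw')
    subst e1 e2
    rw [hcc] at hf
    rw [hf] at hf'
    have e3 : e v = e v' := Option.some.inj hf'
    have e4 := hfe v
    rw [e3, hfe v'] at e4
    exact (Option.some.inj e4).symm
  have hmaps : ∀ v ∈ G, c v ∈ Finset.Ico (l * k) (l * k + (k - 1)) := fun v hv =>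
    Finset.mem_Ico.2 ⟨hc1 v hv, hc2 v hv⟩
  have hle := Finset.card_le_card_of_injOn c hmaps hinj
  rw [Nat.card_Ico, hcard] at hle
  omega

end Pool.Agent.W_MP_7e32c9_lc
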