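import Mathlib

set_option autoImplicit false

namespace Pool.Agent.W_MP_7e32c9_lc

/-- A simple path collection of size `n` in the directed graph `Adj` on the node set `V`:
one nonempty directed path without repeated nodes for each of the `n` packets. -/
structure PathCollection (V : Type) (Adj : V → V → Prop) (n : ℕ) where
  /-- the path of packet `i`, as the list of its nodes -/
  path : Fin n → List V
  path_ne_nil : ∀ i, path i ≠ []
  path_chain : ∀ i, (path i).IsChain Adj
  path_nodup : ∀ i, (path i).Nodup

variable {V : Type} {Adj : V → V → Prop} {n : ℕ}

/-- The path of packet `i` uses the edge from `u` to `w`. -/
def PathCollection.Uses (P : PathCollection V Adj n) (i : Fin n) (u w : V) : Prop :=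
  ∃ j : ℕ, (P.path i)[j]? = some u ∧ (P.path i)[j + 1]? = some w

/-- The congestion: the largest number of paths using one edge. -/
noncomputable def PathCollection.congestion [Fintype V] (P : PathCollection V Adj n) : ℕ :=
  Finset.univ.sup fun e : V × V => Nat.card {i : Fin n // P.Uses i e.1 e.2}

/-- The dilation: the largest number of edges on a path. -/
def PathCollection.dilation (P : PathCollection V Adj n) : ℕ :=
  Finset.univ.sup fun i : Fin n => (P.path i).length - 1

/-- A deterministic online protocol for `n` packets in a network with node set `V`. Nodes have a
memory and packets carry a header, both of arbitrary type. At each step, each node `u` sees its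
memory and the packets present at `u` with their paths and headers (`some` for the packets that are
present, `none` for all others). From this local view it chooses, for each possible next node `w`,
at most one packet to forward over the edge from `u` to `w`, and it updates its memory and the
headers of the packets present. -/
structure OnlineProtocol (V : Type) (n : ℕ) where
  /-- the type of node memories -/
  Mem : Type
  /-- the type of packet headers -/
  Hdr : Type
  /-- the initial memory of a node -/
  initMem : V → Mem
  /-- the initial header of a packet, from its name and its path -/
  initHdr : Fin n → List V → Hdr
  /-- the forwarding rule: step, node, memory, packets present, next node -/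
  forward : ℕ → V → Mem → (Fin n → Option (List V × Hdr)) → V → Option (Fin n)
  /-- the memory update -/
  nextMem : ℕ → V → Mem → (Fin n → Option (List V × Hdr)) → Mem
  /-- the header update for the packets present -/
  nextHdr : ℕ → V → Mem → (Fin n → Option (List V × Hdr)) → Fin n → Hdr

/-- A configuration: the position of every packet on its path (index into the list of nodes), the
memory of every node and the header of every packet. -/
structure Config (A : OnlineProtocol V n) where
  pos : Fin n → ℕ
  mem : V → A.Mem
  hdr : Fin n → A.Hdr

/-- What node `u` sees in configuration `s`: the packets present at `u`, with path and header. -/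
noncomputable def view (A : OnlineProtocol V n) (P : PathCollection V Adj n) (s : Config A)
    (u : V) : Fin n → Option (List V × A.Hdr) :=
  open Classical in
  fun i => if (P.path i)[s.pos i]? = some u then some (P.path i, s.hdr i) else none

/-- Packet `i` moves in step `t`: it is at a node `u`, its next node is `w`, and `u` chooses it
for the edge from `u` to `w`. -/
def Moves (A : OnlineProtocol V n) (P : PathCollection V Adj n) (t : ℕ) (s : Config A)
    (i : Fin n) : Prop :=
  ∃ u w, (P.path i)[s.pos i]? = some u ∧ (P.path i)[s.pos i + 1]? = some w ∧
    A.forward t u (s.mem u) (view A P s u) w = some i

/-- One synchronous step. -/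
noncomputable def step (A : OnlineProtocol V n) (P : PathCollection V Adj n) (t : ℕ)
    (s : Config A) : Config A where
  pos i := open Classical in if Moves A P t s i then s.pos i + 1 else s.pos i
  mem u := A.nextMem t u (s.mem u) (view A P s u)
  hdr i := match (P.path i)[s.pos i]? with
    | some u => A.nextHdr t u (s.mem u) (view A P s u) i
    | none => s.hdr i

/-- The configuration after `t` steps, all packets starting at the first node of their path. -/
noncomputable def run (A : OnlineProtocol V n) (P : PathCollection V Adj n) : ℕ → Config A
  | 0 => ⟨fun _ => 0, A.initMem, fun i => A.initHdr i (P.path i)⟩
  | t + 1 => step A P t (run A P t)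

/-- After `T` steps every packet has reached the last node of its path. -/
def Delivers (A : OnlineProtocol V n) (P : PathCollection V Adj n) (T : ℕ) : Prop :=
  ∀ i, (run A P T).pos i + 1 = (P.path i).length

end Pool.Agent.W_MP_7e32c9_lc
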