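import Pool.Agent.W_MP_7e32c9_lc.Local

set_option autoImplicit false

namespace Pool.Agent.W_MP_7e32c9_lc

variable {L : ℕ} {A : Fin L → ℕ} {n : ℕ}

/-- words -/
abbrev Word (A : Fin L → ℕ) : Type := (i : Fin L) → Fin (A i)

/-- nodes of the network -/
abbrev Node (A : Fin L → ℕ) (n : ℕ) : Type := (Fin (2 * L) × Word A) ⊕ (Fin n × Bool)

/-- level of a node -/
def lev : Node A n → ℕ
  | Sum.inl x => x.1
  | Sum.inr x => if x.2 then 1 else 0

/-- adjacency: complete leveled network -/
def NAdj (u v : Node A n) : Prop := lev v = lev u + 1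

/-- the index of the bottleneck -/
def half (j : Fin (2 * L)) : Fin L := ⟨j / 2, by omega⟩

/-- the name of the bottleneck of word `w` in direction `l` -/
def nm (w₀ w : Word A) (l : Fin L) : Word A := Function.update w l (w₀ l)

/-- path of a word -/
def gp (w₀ w : Word A) : List (Node A n) :=
  List.ofFn fun j : Fin (2 * L) => Sum.inl (j, nm w₀ w (half j))

/-- dummy path -/
def dp (i : Fin n) : List (Node A n) := [Sum.inr (i, false), Sum.inr (i, true)]

lemma gp_get (w₀ w : Word A) (j : ℕ) (h : j < 2 * L) :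
    (gp w₀ w : List (Node A n))[j]? = some (Sum.inl (⟨j, h⟩, nm w₀ w (half ⟨j, h⟩))) := by
  simp [gp, h]

lemma gp_get_none (w₀ w : Word A) (j : ℕ) (h : ¬ j < 2 * L) :
    (gp w₀ w : List (Node A n))[j]? = none := by
  simp [gp]; omega

lemma gp_length (w₀ w : Word A) : (gp w₀ w : List (Node A n)).length = 2 * L := by
  simp [gp]

lemma lev_gp (w₀ w : Word A) (j : ℕ) (u : Node A n) (h : (gp w₀ w)[j]? = some u) : lev u = j := by
  by_cases hj : j < 2 * L
  · rw [gp_get _ _ _ hj] at h
    rw [← Option.some.inj h]; rfl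
  · rw [gp_get_none _ _ _ hj] at h
    exact absurd h (by simp)

/-- The instance with set `S` of active words. -/
def inst (hL : 0 < L) (w₀ : Word A) (f : Fin n → Option (Word A)) (S : Set (Word A)) [DecidablePred (· ∈ S)] :
    PathCollection (Node A n) NAdj n where
  path i := match f i with
    | some w => if w ∈ S then gp w₀ w else dp i
    | none => dp i
  path_ne_nil i := by
    have h1 : ∀ w : Word A, (gp w₀ w : List (Node A n)) ≠ [] := fun w h => by
      have := gp_length (n := n) w₀ w
      rw [h] at this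
      simp at this
      omega
    have h2 : (dp i : List (Node A n)) ≠ [] := by simp [dp]
    cases f i with
    | none => exact h2
    | some w => simp only; split_ifs <;> [exact h1 w; exact h2]
  path_chain i := by
    have h1 : ∀ w : Word A, (gp w₀ w : List (Node A n)).IsChain NAdj := fun w => by
      rw [List.isChain_iff_getElem]
      intro j hj
      unfold NAdj
      rw [lev_gp w₀ w (j + 1) _ (List.getElem?_eq_getElem hj),
        lev_gp w₀ w j _ (List.getElem?_eq_getElem (by omega))]
    have h2 : (dp i : List (Node A n)).IsChain NAdj := by simp [dp, NAdj, lev]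
    cases f i with
    | none => exact h2
    | some w => simp only; split_ifs <;> [exact h1 w; exact h2]
  path_nodup i := by
    have h1 : ∀ w : Word A, (gp w₀ w : List (Node A n)).Nodup := fun w => by
      unfold gp
      rw [List.nodup_ofFn]
      intro a b hab
      have := Sum.inl.inj hab
      exact (Prod.mk.inj this).1
    have h2 : (dp i : List (Node A n)).Nodup := by simp [dp]
    cases f i with
    | none => exact h2
    | some w => simp only; split_ifs <;> [exact h1 w; exact h2]

/-- the region below the bottlenecks of direction `l` that match `w` in the later coordinates -/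
def Reg (l : ℕ) (w : Word A) : Set (Node A n) :=
  {u | ∃ (j : Fin (2 * L)) (x : Word A), u = Sum.inl (j, x) ∧ (j : ℕ) < 2 * l + 2 ∧
    ∀ i : Fin L, l < (i : ℕ) → x i = w i}

lemma gp_in_Reg (w₀ v w : Word A) (l j : ℕ) :
    (∃ u ∈ Reg (n := n) l w, (gp w₀ v)[j]? = some u) ↔
      j < 2 * L ∧ j < 2 * l + 2 ∧ ∀ i : Fin L, l < (i : ℕ) → v i = w i := by
  constructor
  · rintro ⟨u, ⟨j', x, rfl, hj', hx⟩, hu⟩
    by_cases hj : j < 2 * L
    · rw [gp_get _ _ _ hj] at hu
      have h1 := Prod.mk.inj (Sum.inl.inj (Option.some.inj hu))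
      have h2 : j = (j' : ℕ) := by rw [← h1.1]
      refine ⟨hj, by omega, fun i hi => ?_⟩
      rw [← hx i hi, ← h1.2]
      unfold nm
      rw [Function.update_of_ne]
      intro h
      have : (i : ℕ) = j / 2 := by rw [h]; rfl
      omega
    · rw [gp_get_none _ _ _ hj] at hu
      exact absurd hu (by simp)
  · rintro ⟨hj, hj2, hv⟩
    refine ⟨_, ⟨⟨j, hj⟩, nm w₀ v (half ⟨j, hj⟩), rfl, hj2, fun i hi => ?_⟩, gp_get _ _ _ hj⟩
    rw [← hv i hi]
    unfold nm
    rw [Function.update_of_ne]
    intro h
    have : (i : ℕ) = j / 2 := by rw [h]; rfl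
    omega

lemma dp_not_in_Reg (w : Word A) (l j : ℕ) (i : Fin n) :
    ¬ ∃ u ∈ Reg (A := A) (n := n) l w, (dp i)[j]? = some u := by
  rintro ⟨u, ⟨j', x, rfl, _, _⟩, hu⟩
  have : (Sum.inl (j', x) : Node A n) ∈ (dp i : List (Node A n)) := List.mem_of_getElem? hu
  simp [dp] at this

section Inst

variable (hL : 0 < L) (w₀ : Word A) (f : Fin n → Option (Word A)) (e : Word A → Fin n)
  (hfe : ∀ w, f (e w) = some w) (hef : ∀ i w, f i = some w → i = e w)

open Classical in
lemma path_mem {S : Set (Word A)} {w : Word A} (h : w ∈ S) (hfe : ∀ w, f (e w) = some w) :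
    (inst hL w₀ f S).path (e w) = gp w₀ w := by
  simp only [inst, hfe, if_pos h]

open Classical in
lemma path_cases (S : Set (Word A)) (i : Fin n) (hef : ∀ i w, f i = some w → i = e w) :
    (∃ w ∈ S, i = e w ∧ f i = some w ∧ (inst hL w₀ f S).path i = gp w₀ w) ∨
      ((∀ w ∈ S, f i ≠ some w) ∧ (inst hL w₀ f S).path i = dp i) := by
  cases hi : f i with
  | none =>
    right
    refine ⟨fun w _ h => by simp at h, ?_⟩
    simp only [inst, hi]
  | some w =>
    by_cases hw : w ∈ S
    · left
      refine ⟨w, hw, hef i w hi, rfl, ?_⟩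
      simp only [inst, hi, if_pos hw]
    · right
      refine ⟨fun w' hw' h => ?_, ?_⟩
      · have : w = w' := Option.some.inj h
        exact hw (this ▸ hw')
      · simp only [inst, hi, if_neg hw]

open Classical in
/-- The runs on two active sets that agree above the suffix of `w` agree on the region. -/
lemma inst_locality (Pr : OnlineProtocol (Node A n) n) (S S' : Set (Word A)) (l : ℕ) (w : Word A)
    (hfe : ∀ w, f (e w) = some w) (hef : ∀ i w, f i = some w → i = e w)
    (hS : ∀ v : Word A, (∀ i : Fin L, l < (i : ℕ) → v i = w i) → (v ∈ S ↔ v ∈ S'))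
    (v : Word A) (hv : ∀ i : Fin L, l < (i : ℕ) → v i = w i) (hvS : v ∈ S) (t : ℕ)
    (ht : (run Pr (inst hL w₀ f S) t).pos (e v) < 2 * l + 2) :
    (run Pr (inst hL w₀ f S') t).pos (e v) = (run Pr (inst hL w₀ f S) t).pos (e v) := by
  have hclosed : ∀ (S : Set (Word A)) (i : Fin n) (j : ℕ),
      InR (inst hL w₀ f S) (Reg l w) i (j + 1) → InR (inst hL w₀ f S) (Reg l w) i j := by
    intro S i j h
    unfold InR at h ⊢
    rcases path_cases hL w₀ f e S i hef with ⟨x, _, _, _, hx⟩ | ⟨_, hx⟩
    · rw [hx] at h ⊢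
      rw [gp_in_Reg] at h ⊢
      exact ⟨by omega, by omega, h.2.2⟩
    · rw [hx] at h
      exact absurd h (dp_not_in_Reg w l _ i)
  have hsame : ∀ i, (inst hL w₀ f S).path i = (inst hL w₀ f S').path i ∨
      ((∀ j, ¬ InR (inst hL w₀ f S) (Reg l w) i j) ∧
        ∀ j, ¬ InR (inst hL w₀ f S') (Reg l w) i j) := by
    intro i
    cases hi : f i with
    | none =>
      left
      simp only [inst, hi]
    | some x =>
      by_cases hx : ∀ i : Fin L, l < (i : ℕ) → x i = w i
      · left
        simp only [inst, hi, hS x hx]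
      · right
        constructor
        · intro j h
          unfold InR at h
          rcases path_cases hL w₀ f e S i hef with ⟨y, _, _, hy, hx'⟩ | ⟨_, hx'⟩
          · rw [hx', gp_in_Reg] at h
            have : x = y := Option.some.inj (hi.symm.trans hy)
            exact hx (this ▸ h.2.2)
          · rw [hx'] at h
            exact dp_not_in_Reg w l _ i h
        · intro j h
          unfold InR at h
          rcases path_cases hL w₀ f e S' i hef with ⟨y, _, _, hy, hx'⟩ | ⟨_, hx'⟩
          · rw [hx', gp_in_Reg] at h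
            have : x = y := Option.some.inj (hi.symm.trans hy)
            exact hx (this ▸ h.2.2)
          · rw [hx'] at h
            exact dp_not_in_Reg w l _ i h
  have hloc := locality Pr (inst hL w₀ f S) (inst hL w₀ f S') (Reg l w) hsame
    (hclosed S) (hclosed S') t
  have hvS' : v ∈ S' := (hS v hv).1 hvS
  have hpath : (inst hL w₀ f S).path (e v) = (inst hL w₀ f S').path (e v) := by
    rw [path_mem hL w₀ f e hvS hfe, path_mem hL w₀ f e hvS' hfe]
  rcases hloc.2 (e v) hpath with ⟨hp, _⟩ | ⟨h1, _⟩
  · exact hp.symm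
  · exfalso
    apply h1
    unfold InR
    rw [path_mem hL w₀ f e hvS hfe, gp_in_Reg]
    have hlen := pos_lt_length Pr (inst hL w₀ f S) (e v) t
    rw [path_mem hL w₀ f e hvS hfe, gp_length] at hlen
    exact ⟨hlen, ht, hv⟩

end Inst

end Pool.Agent.W_MP_7e32c9_lc
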