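import Pool.Agent.W_MP_7e32c9_lc.Defs

set_option autoImplicit false

namespace Pool.Agent.W_MP_7e32c9_lc

variable {V : Type} {Adj : V → V → Prop} {n : ℕ}

lemma pos_le_succ (A : OnlineProtocol V n) (P : PathCollection V Adj n) (t : ℕ) (i : Fin n) :
    (run A P t).pos i ≤ (run A P (t + 1)).pos i := by
  classical
  simp only [run, step]
  split_ifs <;> omega

lemma pos_succ_le (A : OnlineProtocol V n) (P : PathCollection V Adj n) (t : ℕ) (i : Fin n) :
    (run A P (t + 1)).pos i ≤ (run A P t).pos i + 1 := by
  classical
  simp only [run, step]
  split_ifs <;> omega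

lemma pos_mono (A : OnlineProtocol V n) (P : PathCollection V Adj n) (i : Fin n) :
    Monotone fun t => (run A P t).pos i :=
  monotone_nat_of_le_succ fun t => pos_le_succ A P t i

lemma pos_lt_length (A : OnlineProtocol V n) (P : PathCollection V Adj n) (i : Fin n) (t : ℕ) :
    (run A P t).pos i < (P.path i).length := by
  classical
  induction t with
  | zero => exact List.length_pos_of_ne_nil (P.path_ne_nil i)
  | succ t ih =>
    simp only [run, step]
    split_ifs with h
    · obtain ⟨u, w, _, h2, _⟩ := h
      exact (List.getElem?_eq_some_iff.1 h2).1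
    · exact ih

lemma moves_of_lt (A : OnlineProtocol V n) (P : PathCollection V Adj n) (t : ℕ) (i : Fin n)
    (h : (run A P t).pos i < (run A P (t + 1)).pos i) : Moves A P t (run A P t) i := by
  classical
  by_contra hc
  simp only [run, step, if_neg hc] at h
  exact absurd h (lt_irrefl _)

/-- The position of the packet is in the region. -/
def InR (P : PathCollection V Adj n) (R : Set V) (i : Fin n) (j : ℕ) : Prop :=
  ∃ u ∈ R, (P.path i)[j]? = some u

/-- The runs on two path collections agree on a region that is closed under predecessors and on
which both collections have the same packets. -/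
lemma locality (A : OnlineProtocol V n) (P Q : PathCollection V Adj n) (R : Set V)
    (hsame : ∀ i, P.path i = Q.path i ∨ ((∀ j, ¬ InR P R i j) ∧ ∀ j, ¬ InR Q R i j))
    (hP : ∀ i j, InR P R i (j + 1) → InR P R i j)
    (hQ : ∀ i j, InR Q R i (j + 1) → InR Q R i j) (t : ℕ) :
    (∀ u ∈ R, (run A P t).mem u = (run A Q t).mem u) ∧
    ∀ i, P.path i = Q.path i →
      ((run A P t).pos i = (run A Q t).pos i ∧ (run A P t).hdr i = (run A Q t).hdr i) ∨
      (¬ InR P R i ((run A P t).pos i) ∧ ¬ InR Q R i ((run A Q t).pos i)) := by
  classical
  induction t with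
  | zero =>
    refine ⟨fun _ _ => rfl, fun i hi => Or.inl ⟨rfl, ?_⟩⟩
    simp only [run, hi]
  | succ t ih =>
    obtain ⟨ihm, ihp⟩ := ih
    -- equality of views on the region
    have hview : ∀ u ∈ R, view A P (run A P t) u = view A Q (run A Q t) u := by
      intro u hu
      funext i
      unfold view
      rcases hsame i with hi | ⟨h1, h2⟩
      · rcases ihp i hi with ⟨hp, hh⟩ | ⟨h3, h4⟩
        · rw [hi, hp, hh]
        · have e1 : ¬ (P.path i)[(run A P t).pos i]? = some u := fun h => h3 ⟨u, hu, h⟩
          have e2 : ¬ (Q.path i)[(run A Q t).pos i]? = some u := fun h => h4 ⟨u, hu, h⟩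
          rw [if_neg e1, if_neg e2]
      · have e1 : ¬ (P.path i)[(run A P t).pos i]? = some u := fun h => h1 _ ⟨u, hu, h⟩
        have e2 : ¬ (Q.path i)[(run A Q t).pos i]? = some u := fun h => h2 _ ⟨u, hu, h⟩
        rw [if_neg e1, if_neg e2]
    refine ⟨fun u hu => ?_, fun i hi => ?_⟩
    · simp only [run, step]
      rw [ihm u hu, hview u hu]
    · -- a packet outside the region stays outside
      have outP : ¬ InR P R i ((run A P t).pos i) → ¬ InR P R i ((run A P (t + 1)).pos i) := by
        intro h
        simp only [run, step]
        split_ifs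
        · exact fun h' => h (hP _ _ h')
        · exact h
      have outQ : ¬ InR Q R i ((run A Q t).pos i) → ¬ InR Q R i ((run A Q (t + 1)).pos i) := by
        intro h
        simp only [run, step]
        split_ifs
        · exact fun h' => h (hQ _ _ h')
        · exact h
      rcases ihp i hi with ⟨hp, hh⟩ | ⟨h3, h4⟩
      · by_cases hin : InR P R i ((run A P t).pos i)
        · left
          obtain ⟨u, hu, hpu⟩ := hin
          have hqu : (Q.path i)[(run A Q t).pos i]? = some u := by rw [← hi, ← hp]; exact hpu
          have hmv : Moves A P t (run A P t) i ↔ Moves A Q t (run A Q t) i := by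
            unfold Moves
            constructor
            · rintro ⟨u', w, h1, h2, h3⟩
              have : u' = u := by rw [hpu] at h1; exact (Option.some.inj h1).symm
              subst this
              exact ⟨u', w, hqu, by rw [← hi, ← hp]; exact h2, by rw [← ihm u' hu, ← hview u' hu]; exact h3⟩
            · rintro ⟨u', w, h1, h2, h3⟩
              have : u' = u := by rw [hqu] at h1; exact (Option.some.inj h1).symm
              subst this
              exact ⟨u', w, hpu, by rw [hi, hp]; exact h2, by rw [ihm u' hu, hview u' hu]; exact h3⟩
          constructor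
          · simp only [run, step]
            by_cases hm : Moves A P t (run A P t) i
            · rw [if_pos hm, if_pos (hmv.1 hm), hp]
            · rw [if_neg hm, if_neg (fun h => hm (hmv.2 h)), hp]
          · simp only [run, step]
            rw [hpu, hqu]
            simp only
            rw [ihm u hu, hview u hu]
        · right
          refine ⟨outP hin, outQ ?_⟩
          rintro ⟨u, hu, h⟩
          exact hin ⟨u, hu, by rw [hi, hp]; exact h⟩
      · right
        exact ⟨outP h3, outQ h4⟩

end Pool.Agent.W_MP_7e32c9_lc
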